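import Mathlib
import Pool.Agent.SWL57.Eng

/-!
# Levels are well formed: checks for the kernel

`K` is the packed list of the numbers of rails of the levels (base `8`). The levels are given by a
list (`List.getD`, or `gl` with a fast lookup) or by a binary tree (`gw`). One check per level,
`LvC K t (level t)`, and the check `chn` of `K` give `Wf`.
-/

set_option autoImplicit false

namespace Pool.Agent.SWL41

open Pool.Agent.SWL57

/-! ### The check of a level -/

/-- The number of rails of the level `s`, from the packed list. -/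
def kk (K s : ℕ) : ℕ := Nat.mod (Nat.div K (Nat.pow 8 s)) 8

/-- The check of the number `s + 2 ^ 16 * g` for the level `t` with `kt` rails. -/
noncomputable def okp (K t kt sg : ℕ) : Bool :=
  cond (Nat.ble (Nat.succ (Nat.mod sg 65536)) t)
    (frl (kk K (Nat.mod sg 65536)) fun k => frl (Nat.div sg 65536) fun g =>
      cond (okg k g) (Nat.beq (ko k g) kt) false)
    (Nat.beq kt 1)

/-- The check of all codes of a level. -/
noncomputable def chw (K t kt : ℕ) (T : Tr) : Bool :=
  Tr.rec (fun v => cond (Nat.beq v 0) true (frl (Nat.div (Nat.sub v 1) 65536) (okp K t kt)))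
    (fun _ _ a b => cond a b false) T

/-- The level `t` passes the check. -/
def LvC (K t : ℕ) (a : Wl) : Prop := chw K t a.k a.b = true

noncomputable instance (K t : ℕ) (a : Wl) : Decidable (LvC K t a) :=
  inferInstanceAs (Decidable (chw K t a.k a.b = true))

theorem chw_lf (K t kt v : ℕ) : chw K t kt (.lf v) =
    cond (Nat.beq v 0) true (okp K t kt ((v - 1) / 65536)) := by
  have e : chw K t kt (.lf v) =
    cond (Nat.beq v 0) true (frl ((v - 1) / 65536) (okp K t kt)) := rfl
  rw [e, frl_eq]

theorem chw_nd (K t kt : ℕ) (l r : Tr) : chw K t kt (.nd l r) =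
    cond (chw K t kt l) (chw K t kt r) false := rfl

theorem cond_false {a b : Bool} (h : cond a b false = true) : a = true ∧ b = true := by
  cases a
  · exact absurd h Bool.false_ne_true
  · exact ⟨rfl, h⟩

theorem chw_gt {K t kt : ℕ} {T : Tr} : chw K t kt T = true → ∀ i, gt T i ≠ 0 →
    okp K t kt ((gt T i - 1) / 65536) = true := by
  induction T with
  | lf v =>
    intro h i hi
    rw [gt_lf] at hi ⊢
    by_cases h0 : i = 0
    · rw [if_pos h0] at hi ⊢
      rw [chw_lf, beq_false hi, _root_.cond_false] at h
      exact h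
    · rw [if_neg h0] at hi
      exact absurd rfl hi
  | nd l r h1 h2 =>
    intro h i hi
    rw [chw_nd] at h
    obtain ⟨h3, h4⟩ := cond_false h
    rw [gt_nd] at hi ⊢
    split_ifs at hi ⊢ with h5
    · exact h1 h3 _ hi
    · exact h2 h4 _ hi

theorem okp_spec {K t kt sg : ℕ} (h : okp K t kt sg = true) :
    (sg % 65536 < t ∧ okg (kk K (sg % 65536)) (sg / 65536) = true ∧
      ko (kk K (sg % 65536)) (sg / 65536) = kt) ∨ (¬ sg % 65536 < t ∧ kt = 1) := by
  unfold okp at h
  rw [frl_eq, frl_eq] at h
  have e1 : Nat.mod sg 65536 = sg % 65536 := rfl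
  have e2 : Nat.div sg 65536 = sg / 65536 := rfl
  rw [e1, e2] at h
  by_cases h1 : sg % 65536 < t
  · left
    have h2 : Nat.ble (Nat.succ (sg % 65536)) t = true := Nat.ble_eq_true_of_le h1
    rw [h2, cond_true] at h
    obtain ⟨h3, h4⟩ := cond_false h
    exact ⟨h1, h3, Nat.eq_of_beq_eq_true h4⟩
  · right
    have h2 : Nat.ble (Nat.succ (sg % 65536)) t = false := by
      cases h3 : Nat.ble (Nat.succ (sg % 65536)) t with
      | false => rfl
      | true => exact absurd (Nat.le_of_ble_eq_true h3) h1
    rw [h2, _root_.cond_false] at h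
    exact ⟨h1, Nat.eq_of_beq_eq_true h⟩

/-- The empty level. -/
abbrev w0 : Wl := ⟨0, 0, .lf 0⟩

theorem lvC_w0 (K t : ℕ) : LvC K t w0 := rfl

/-! ### All levels -/

/-- The check of the packed list of the numbers of rails. -/
def chn (W : ℕ → Wl) (K n : ℕ) : Bool :=
  Nat.rec true (fun s ih => cond (Nat.beq (kk K s) (W s).k) ih false) n

theorem chn_spec {W : ℕ → Wl} {K : ℕ} : ∀ {n : ℕ}, chn W K n = true →
    ∀ s < n, kk K s = (W s).k := by
  intro n
  induction n with
  | zero => intro _ s hs; exact absurd hs (Nat.not_lt_zero _)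
  | succ n ih =>
    intro h s hs
    have e : chn W K (n + 1) = cond (Nat.beq (kk K n) (W n).k) (chn W K n) false := rfl
    rw [e] at h
    obtain ⟨h1, h2⟩ := cond_false h
    rcases Nat.lt_succ_iff_lt_or_eq.1 hs with h3 | rfl
    · exact ih h2 s h3
    · exact Nat.eq_of_beq_eq_true h1

/-- The levels are well formed if they pass the checks. -/
theorem wf_gen {W : ℕ → Wl} {K n : ℕ} (hK : chn W K n = true) (hb : ∀ t, n ≤ t → W t = w0)
    (h : ∀ t < n, LvC K t (W t)) : Wf W := by
  intro t i hi
  by_cases htn : t < n
  · have h1 := okp_spec (chw_gt (h t htn) i hi)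
    have e1 : cs (gt (W t).b i) = (gt (W t).b i - 1) / 65536 % 65536 := rfl
    have e2 : cgo (gt (W t).b i) = (gt (W t).b i - 1) / 65536 / 65536 := rfl
    rw [← e1, ← e2] at h1
    rcases h1 with ⟨h2, h3, h4⟩ | h2
    · left
      rw [chn_spec hK _ (h2.trans htn)] at h3 h4
      exact ⟨h2, h3, h4⟩
    · exact Or.inr h2
  · rw [hb t (not_lt.1 htn)] at hi
    exact absurd (by rw [gt_lf]; split_ifs <;> rfl) hi

/-! ### Levels given by a list -/

/-- The lookup in a list. -/
noncomputable def gl (l : List Wl) : ℕ → Wl :=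
  List.rec (fun _ => w0) (fun a _ ih n => Nat.rec a (fun m _ => ih m) n) l

theorem gl_eq (l : List Wl) : ∀ t, gl l t = l.getD t w0 := by
  induction l with
  | nil => intro t; rfl
  | cons a l ih =>
    intro t
    cases t with
    | zero => rfl
    | succ t => exact ih t

theorem gl_fun (l : List Wl) : gl l = fun t => l.getD t w0 := funext (gl_eq l)

/-- All levels of the list pass the check; the first one has the number `t`. -/
def AllL (K : ℕ) : ℕ → List Wl → Prop
  | _, [] => True
  | t, a :: l => LvC K t a ∧ AllL K (t + 1) l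

theorem AllL.lv {K : ℕ} {l : List Wl} : ∀ {t : ℕ}, AllL K t l → ∀ i, LvC K (t + i) (gl l i) := by
  induction l with
  | nil => intro t _ i; exact lvC_w0 _ _
  | cons a l ih =>
    intro t h i
    cases i with
    | zero => exact h.1
    | succ i =>
      have h1 := ih h.2 i
      rw [show t + 1 + i = t + (i + 1) by omega] at h1
      exact h1

theorem gl_ge (l : List Wl) {t : ℕ} (h : l.length ≤ t) : gl l t = w0 := by
  rw [gl_eq]
  exact List.getD_eq_default _ _ h

/-- The levels of a list are well formed, with the fast lookup. -/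
theorem wf_gl {K : ℕ} {l : List Wl} (hK : chn (gl l) K l.length = true) (h : AllL K 0 l) :
    Wf (gl l) := by
  refine wf_gen hK (fun t ht => gl_ge l ht) fun t _ => ?_
  have h1 := h.lv t
  rwa [Nat.zero_add] at h1

/-- The levels of a list are well formed. -/
theorem wf_list {K : ℕ} {l : List Wl} (hK : chn (gl l) K l.length = true) (h : AllL K 0 l) :
    Wf fun t => l.getD t ⟨0, 0, .lf 0⟩ := by
  have h1 := wf_gl hK h
  rwa [gl_fun] at h1

/-! ### Levels given by a binary tree -/

/-- A binary tree of levels; the path to a level is given by the binary digits of its index, the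
last digit first. -/
inductive WT : Type
  | lf (w : Wl)
  | nd (l r : WT)

/-- The lookup in a tree. -/
noncomputable def gw (T : WT) : ℕ → Wl :=
  WT.rec (fun w i => cond (Nat.beq i 0) w w0)
    (fun _ _ a b i => cond (Nat.beq (Nat.mod i 2) 0) (a (Nat.div i 2)) (b (Nat.div i 2))) T

theorem gw_lf (w : Wl) (i : ℕ) : gw (.lf w) i = if i = 0 then w else w0 := by
  have e : gw (.lf w) i = cond (Nat.beq i 0) w w0 := rfl
  rw [e]
  cases i <;> rfl

theorem gw_nd (l r : WT) (i : ℕ) :
    gw (.nd l r) i = if i % 2 = 0 then gw l (i / 2) else gw r (i / 2) := by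
  have e : gw (.nd l r) i = cond (Nat.beq (i % 2) 0) (gw l (i / 2)) (gw r (i / 2)) := rfl
  rw [e]
  rcases Nat.mod_two_eq_zero_or_one i with h | h <;> rw [h] <;> rfl

/-- The depth of the tree is at most `n`. -/
noncomputable def WT.dep (T : WT) : ℕ → Bool :=
  WT.rec (fun _ _ => true) (fun _ _ a b n => Nat.rec false (fun m _ => cond (a m) (b m) false) n) T

theorem gw_ge {T : WT} : ∀ {n : ℕ}, T.dep n = true → ∀ i, 2 ^ n ≤ i → gw T i = w0 := by
  induction T with
  | lf w =>
    intro n _ i hi
    have h1 : 0 < 2 ^ n := by positivity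
    rw [gw_lf, if_neg (by omega)]
  | nd l r h1 h2 =>
    intro n h i hi
    cases n with
    | zero => exact absurd h Bool.false_ne_true
    | succ n =>
      have e : (WT.nd l r).dep (n + 1) = cond (l.dep n) (r.dep n) false := rfl
      rw [e] at h
      obtain ⟨h3, h4⟩ := cond_false h
      rw [pow_succ] at hi
      rw [gw_nd]
      split_ifs
      · exact h1 h3 _ (by omega)
      · exact h2 h4 _ (by omega)

/-- All levels of the tree pass the check; the number of a level is `j + st * i`. -/
def AllT (K : ℕ) : WT → ℕ → ℕ → Prop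
  | .lf w, j, _ => LvC K j w
  | .nd l r, j, st => AllT K l j (2 * st) ∧ AllT K r (j + st) (2 * st)

theorem AllT.lv {K : ℕ} {T : WT} : ∀ {j st : ℕ}, AllT K T j st →
    ∀ i, LvC K (j + st * i) (gw T i) := by
  induction T with
  | lf w =>
    intro j st h i
    rw [gw_lf]
    split_ifs with h0
    · rw [h0, Nat.mul_zero, Nat.add_zero]
      exact h
    · exact lvC_w0 _ _
  | nd l r h1 h2 =>
    intro j st h i
    rw [gw_nd]
    split_ifs with h0
    · have h3 := h1 h.1 (i / 2)
      have e : j + 2 * st * (i / 2) = j + st * i := by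
        have : i = 2 * (i / 2) := by omega
        conv_rhs => rw [this]
        ring
      rwa [e] at h3
    · have h3 := h2 h.2 (i / 2)
      have e : j + st + 2 * st * (i / 2) = j + st * i := by
        have : i = 2 * (i / 2) + 1 := by omega
        conv_rhs => rw [this]
        ring
      rwa [e] at h3

/-- The levels of a tree are well formed. -/
theorem wf_tree {K n : ℕ} {T : WT} (hT : T.dep n = true) (hK : chn (gw T) K (2 ^ n) = true)
    (h : AllT K T 0 1) : Wf (gw T) := by
  refine wf_gen hK (fun t ht => gw_ge hT t ht) fun t _ => ?_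
  have h1 := h.lv t
  rwa [Nat.zero_add, Nat.one_mul] at h1

/-! ### One check for all levels -/

/-- The check of the levels of a list. -/
noncomputable def chl (K : ℕ) (l : List Wl) : ℕ → Bool :=
  List.rec (fun _ => true) (fun a _ ih t => cond (chw K t a.k a.b) (ih (Nat.succ t)) false) l

theorem chl_all {K : ℕ} {l : List Wl} : ∀ {t : ℕ}, chl K l t = true → AllL K t l := by
  induction l with
  | nil => intro t _; trivial
  | cons a l ih =>
    intro t h
    have e : chl K (a :: l) t = cond (chw K t a.k a.b) (chl K l (t + 1)) false := rfl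
    rw [e] at h
    obtain ⟨h1, h2⟩ := cond_false h
    exact ⟨h1, ih h2⟩

end Pool.Agent.SWL41
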